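import Pool.Agent.Zk85.NS.REC2

/-!
# Two arms for some modification on a sparse random set of edges: the induction
-/

set_option autoImplicit false

namespace Pool.Agent.Zk85.NS

open H974 Finset H342P H984P H984N H12S H389NS Pool.Agent.Zk36.TT Pool.Agent.W92.DP
open Pool.Agent.Zk72.NS

/-- the three events around the pivotal edge -/
def Dv (v : Vtx) (d k : ℕ) (b : Bool) (f : Edg) (U B : Finset Edg) : Prop :=
  Sw (F2 v d (ds v f / 2)) U B ∧ Sw (F4 b (src (gm b f)) 1 (ds v f / 4)) U B ∧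
    Sw (F2 v (2 * ds v f) k) U B

theorem Lc_Dv (v : Vtx) (d k : ℕ) (b : Bool) (f : Edg) :
    Lc (T1 v d f ∪ (T2 v b f ∪ T3 v k f)) (Dv v d k b f) :=
  Lc_and (Lc_F2 _ _ _) (Lc_and (Lc_F4 _ _ _ _) (Lc_F2 _ _ _))

theorem mem_W {v : Vtx} {d k : ℕ} {f : Edg} (hf : f ∈ blk v (k / 4) \ blk v (16 * d)) :
    16 * d ≤ ds v f ∧ ds v f ≤ k / 4 := by
  rw [Finset.mem_sdiff] at hf
  have h1 := blk_src hf.1
  have h2 := not_blk hf.2
  have h3 := ds_eq v f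
  push_cast at h1 h2
  omega

theorem subs {v : Vtx} {d k : ℕ} {f : Edg} {S : Finset Edg} (hd : 1 ≤ d) (hS : blk v (k + 1) ⊆ S)
    (hf : 16 * d ≤ ds v f ∧ ds v f ≤ k / 4) (b : Bool) :
    blk v (ds v f / 2 + 1) ⊆ S ∧ blk (src (gm b f)) (ds v f / 4 + 1) ⊆ S ∧ blk v (k + 1) ⊆ S := by
  refine ⟨(blk_sub (by omega)).trans hS, ?_, hS⟩
  intro x hx
  apply hS
  apply blk_of
  have g2 := blk_src hx
  have g3 := Walk_sd_tri v (src f) (src x)
  have g4 := Walk_sd_tri (src f) (src (gm b f)) (src x)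
  have g5 := gm_src b f
  have g8 := ds_eq v f
  push_cast at g2 ⊢
  omega

theorem Q_Dv {ε : ℝ} {v : Vtx} {d k : ℕ} {b : Bool} {f : Edg} {S : Finset Edg} (hd : 1 ≤ d)
    (hS : blk v (k + 1) ⊆ S) (hf : 16 * d ≤ ds v f ∧ ds v f ≤ k / 4) :
    Q ε S (Dv v d k b f) = Q ε S (Sw (F2 v d (ds v f / 2))) *
      (Q ε S (Sw (F4 b (src (gm b f)) 1 (ds v f / 4))) * Q ε S (Sw (F2 v (2 * ds v f) k))) := by
  obtain ⟨s1, s2, s3⟩ := subs hd hS hf b
  have t1 : T1 v d f ⊆ S := (T1_sub v d f).trans s1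
  have t2 : T2 v b f ⊆ S := (T2_sub v b f).trans s2
  have t3 : T3 v k f ⊆ S := (T3_sub v k f).trans s3
  have h16 : 16 ≤ ds v f := by omega
  have e1 := Q_and (ε := ε) (S := S) t2 t3 (T23 h16) (Lc_F4 b (src (gm b f)) 1 (ds v f / 4))
    (Lc_F2 v (2 * ds v f) k)
  have e2 := Q_and (ε := ε) (S := S) t1 (Finset.union_subset t2 t3)
    (Finset.disjoint_union_right.2 ⟨T12 h16, T13 h16⟩) (Lc_F2 v d (ds v f / 2))
    (Lc_and (Lc_F4 b (src (gm b f)) 1 (ds v f / 4)) (Lc_F2 v (2 * ds v f) k))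
  rw [e1] at e2
  exact e2

theorem inter_eq {F B W R : Finset Edg} (hR : R ⊆ W) :
    ((F \ W) ∪ (B ∩ W)) ∩ R = B ∩ R := by
  ext x
  have hx := @hR x
  simp only [Finset.mem_inter, Finset.mem_union, Finset.mem_sdiff]
  tauto

/-- the deterministic part -/
theorem step_det (hC : S_CHN) (hE : S_EXI) (hP : S_PIV1) {v : Vtx} {d k : ℕ} (hd : 1 ≤ d)
    (hk : 128 * d < k) {U B : Finset Edg} (h : Sw (F2 v d k) U B) :
    F2 v (16 * d + 2) (k / 4 - 2) B ∨ ∃ f ∈ blk v (k / 4) \ blk v (16 * d), f ∈ U ∧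
      (Dv v d k true f U B ∨ Dv v d k false f U B) := by
  obtain ⟨F, hF, hA⟩ := h
  rcases hC U B F (blk v (k / 4) \ blk v (16 * d)) (F2 v d k) hF hA with
    h | ⟨F₁, f, g1, g2, g3, g4, g5⟩
  · left
    have h1 := F2_mono hE (d' := 16 * d + 2) (k' := k / 4 - 2) (by omega) (by omega) (by omega) h
    rw [F2_loc] at h1 ⊢
    have hR : rg true v (16 * d + 2) (k / 4 - 2) ∪ rg false v (16 * d + 2) (k / 4 - 2) ⊆
        blk v (k / 4) \ blk v (16 * d) := by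
      intro x hx
      have hx1 : ∃ b, x ∈ rg b v (16 * d + 1 + 1) (k / 4 - 2) := by
        rcases Finset.mem_union.1 hx with h | h
        · exact ⟨true, h⟩
        · exact ⟨false, h⟩
      obtain ⟨b, hb⟩ := hx1
      rw [Finset.mem_sdiff]
      refine ⟨blk_sub (by omega) (rg_sub _ _ _ _ hb), fun h => ?_⟩
      exact rg_out hb (blk_sub (by omega) h)
    rw [inter_eq hR] at h1
    exact h1
  · right
    refine ⟨f, g2, g3, ?_⟩
    obtain ⟨k1, k2⟩ := mem_W g2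
    have k3 := ds_eq v f
    have inner : Sw (F2 v d (ds v f / 2)) U B :=
      ⟨F₁, g1, F2_mono hE le_rfl (by omega) (by omega) g4⟩
    have outer : Sw (F2 v (2 * ds v f) k) U B :=
      ⟨F₁, g1, F2_mono hE (by omega) (by omega) le_rfl g4⟩
    have q : (((ds v f / 4 : ℕ)) : ℤ) = (ds v f : ℤ) / 4 := by push_cast; rfl
    by_cases hb : Cx v d k (gd true (Pool.Agent.Zk36.TT.flip f F₁))
    · right
      have hb' : ¬ Cx v d k (gd false (Pool.Agent.Zk36.TT.flip f F₁)) := fun h => g5 ⟨hb, h⟩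
      exact ⟨inner, ⟨F₁, g1, Cx_piv hP (by omega) g4.2 hb' (by omega) (by omega)⟩, outer⟩
    · left
      exact ⟨inner, ⟨F₁, g1, Cx_piv hP (by omega) g4.1 hb (by omega) (by omega)⟩, outer⟩

theorem r144 : (144 : ℝ) ^ (1 / 4 : ℝ) ≤ 4 := by
  have h1 : (144 : ℝ) ^ (1 / 4 : ℝ) ≤ (256 : ℝ) ^ (1 / 4 : ℝ) :=
    Real.rpow_le_rpow (by norm_num) (by norm_num) (by norm_num)
  have h2 : (256 : ℝ) ^ (1 / 4 : ℝ) = 4 := by
    rw [show (256 : ℝ) = 4 ^ (4 : ℝ) by norm_num, ← Real.rpow_mul (by norm_num)]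
    norm_num
  linarith

theorem r256 : ((1 : ℝ) / 256) ^ (1 / 4 : ℝ) = 1 / 4 := by
  rw [show (1 : ℝ) / 256 = (1 / 4) ^ (4 : ℝ) by norm_num, ← Real.rpow_mul (by norm_num)]
  norm_num

theorem r8 : (8 : ℝ) ^ (1 / 4 : ℝ) * (8 : ℝ) ^ (5 / 4 : ℝ) ≤ 23 := by
  rw [← Real.rpow_add (by norm_num), show (1 / 4 : ℝ) + 5 / 4 = 1 / 2 * 3 by norm_num,
    Real.rpow_mul (by norm_num), ← Real.sqrt_eq_rpow]
  have h : √(8 : ℝ) ≤ 2.84 := by
    rw [Real.sqrt_le_left (by norm_num)]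
    norm_num
  have h0 : 0 ≤ √(8 : ℝ) := Real.sqrt_nonneg _
  have h3 : (√(8 : ℝ)) ^ (3 : ℝ) = √(8 : ℝ) ^ 2 * √(8 : ℝ) := by
    rw [← pow_succ]
    norm_cast
  rw [h3, Real.sq_sqrt (by norm_num)]
  linarith

/-- the first term -/
theorem first_bd {d k : ℕ} (hd : 1 ≤ d) (hk : 128 * d < k) :
    (((16 * d + 2 : ℕ) : ℝ) / ((k / 4 - 2 : ℕ) : ℝ)) ^ (1 / 4 : ℝ) ≤
      4 * ((d : ℝ) / k) ^ (1 / 4 : ℝ) := by
  have hk0 : (0 : ℝ) < k := by exact_mod_cast (by omega : 0 < k)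
  have hd0 : (1 : ℝ) ≤ d := by exact_mod_cast hd
  have h1 : (k : ℝ) / 8 ≤ ((k / 4 - 2 : ℕ) : ℝ) := by
    have : k ≤ 8 * (k / 4 - 2) := by omega
    have h2 : (k : ℝ) ≤ 8 * ((k / 4 - 2 : ℕ) : ℝ) := by exact_mod_cast this
    linarith
  have h2 : ((16 * d + 2 : ℕ) : ℝ) ≤ 18 * d := by push_cast; linarith
  have h3 : ((16 * d + 2 : ℕ) : ℝ) / ((k / 4 - 2 : ℕ) : ℝ) ≤ 144 * ((d : ℝ) / k) := by
    have h4 : ((16 * d + 2 : ℕ) : ℝ) / ((k / 4 - 2 : ℕ) : ℝ) ≤ (18 * d) / ((k : ℝ) / 8) :=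
      div_le_div₀ (by positivity) h2 (by positivity) h1
    have h5 : (18 * (d : ℝ)) / ((k : ℝ) / 8) = 144 * ((d : ℝ) / k) := by field_simp; ring
    linarith
  calc (((16 * d + 2 : ℕ) : ℝ) / ((k / 4 - 2 : ℕ) : ℝ)) ^ (1 / 4 : ℝ)
      ≤ (144 * ((d : ℝ) / k)) ^ (1 / 4 : ℝ) :=
        Real.rpow_le_rpow (by positivity) h3 (by norm_num)
    _ = 144 ^ (1 / 4 : ℝ) * ((d : ℝ) / k) ^ (1 / 4 : ℝ) :=
        Real.mul_rpow (by norm_num) (by positivity)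
    _ ≤ 4 * ((d : ℝ) / k) ^ (1 / 4 : ℝ) :=
        mul_le_mul_of_nonneg_right r144 (by positivity)

/-- the terms of the sum -/
theorem term_bd {d k s : ℕ} (hk : 1 ≤ k) (hs : 16 ≤ s) :
    ((d : ℝ) / ((s / 2 : ℕ) : ℝ)) ^ (1 / 4 : ℝ) * ((((1 : ℕ) : ℝ) / ((s / 4 : ℕ) : ℝ)) ^ (5 / 4 : ℝ) *
      (((2 * s : ℕ) : ℝ) / k) ^ (1 / 4 : ℝ)) ≤
      23 * ((d : ℝ) / k) ^ (1 / 4 : ℝ) * (s : ℝ) ^ (-(5 / 4) : ℝ) := by
  have hk0 : (0 : ℝ) < k := by exact_mod_cast hk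
  have hs0 : (0 : ℝ) < s := by exact_mod_cast (by omega : 0 < s)
  have h1 : (s : ℝ) / 4 ≤ ((s / 2 : ℕ) : ℝ) := by
    have : s ≤ 4 * (s / 2) := by omega
    have h2 : (s : ℝ) ≤ 4 * ((s / 2 : ℕ) : ℝ) := by exact_mod_cast this
    linarith
  have h2 : (s : ℝ) / 8 ≤ ((s / 4 : ℕ) : ℝ) := by
    have : s ≤ 8 * (s / 4) := by omega
    have h2 : (s : ℝ) ≤ 8 * ((s / 4 : ℕ) : ℝ) := by exact_mod_cast this
    linarith
  have h3 : (d : ℝ) / ((s / 2 : ℕ) : ℝ) ≤ 4 * (d / s) := by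
    calc (d : ℝ) / ((s / 2 : ℕ) : ℝ) ≤ d / ((s : ℝ) / 4) :=
          div_le_div_of_nonneg_left (by positivity) (by positivity) h1
      _ = 4 * (d / s) := by field_simp
  have h4 : ((1 : ℕ) : ℝ) / ((s / 4 : ℕ) : ℝ) ≤ 8 * (1 / s) := by
    calc ((1 : ℕ) : ℝ) / ((s / 4 : ℕ) : ℝ) ≤ ((1 : ℕ) : ℝ) / ((s : ℝ) / 8) :=
          div_le_div_of_nonneg_left (by positivity) (by positivity) h2
      _ = 8 * (1 / s) := by push_cast; field_simp
  have e1 : ((d : ℝ) / ((s / 2 : ℕ) : ℝ)) ^ (1 / 4 : ℝ) ≤ (4 * ((d : ℝ) / s)) ^ (1 / 4 : ℝ) :=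
    Real.rpow_le_rpow (by positivity) h3 (by norm_num)
  have e2 : (((1 : ℕ) : ℝ) / ((s / 4 : ℕ) : ℝ)) ^ (5 / 4 : ℝ) ≤ (8 * (1 / (s : ℝ))) ^ (5 / 4 : ℝ) :=
    Real.rpow_le_rpow (by positivity) h4 (by norm_num)
  have e3 : (8 * (1 / (s : ℝ))) ^ (5 / 4 : ℝ) = 8 ^ (5 / 4 : ℝ) * (s : ℝ) ^ (-(5 / 4) : ℝ) := by
    rw [Real.mul_rpow (by norm_num) (by positivity), Real.rpow_neg hs0.le, one_div,
      Real.inv_rpow hs0.le]
  have e4 : (4 * ((d : ℝ) / s)) ^ (1 / 4 : ℝ) * (((2 * s : ℕ) : ℝ) / k) ^ (1 / 4 : ℝ) =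
      8 ^ (1 / 4 : ℝ) * ((d : ℝ) / k) ^ (1 / 4 : ℝ) := by
    rw [← Real.mul_rpow (by positivity) (by positivity), ← Real.mul_rpow (by norm_num)
      (by positivity)]
    congr 1
    push_cast
    field_simp
    ring
  have p1 : 0 ≤ (4 * ((d : ℝ) / s)) ^ (1 / 4 : ℝ) := by positivity
  have p2 : 0 ≤ (((2 * s : ℕ) : ℝ) / k) ^ (1 / 4 : ℝ) := by positivity
  have p3 : 0 ≤ (((1 : ℕ) : ℝ) / ((s / 4 : ℕ) : ℝ)) ^ (5 / 4 : ℝ) := by positivity
  have p4 : 0 ≤ (s : ℝ) ^ (-(5 / 4) : ℝ) := by positivity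
  have p5 : 0 ≤ ((d : ℝ) / k) ^ (1 / 4 : ℝ) := by positivity
  calc ((d : ℝ) / ((s / 2 : ℕ) : ℝ)) ^ (1 / 4 : ℝ) *
        ((((1 : ℕ) : ℝ) / ((s / 4 : ℕ) : ℝ)) ^ (5 / 4 : ℝ) * (((2 * s : ℕ) : ℝ) / k) ^ (1 / 4 : ℝ))
      ≤ (4 * ((d : ℝ) / s)) ^ (1 / 4 : ℝ) *
        ((8 * (1 / (s : ℝ))) ^ (5 / 4 : ℝ) * (((2 * s : ℕ) : ℝ) / k) ^ (1 / 4 : ℝ)) :=
        mul_le_mul e1 (mul_le_mul_of_nonneg_right e2 p2) (by positivity) p1
    _ = (8 ^ (1 / 4 : ℝ) * 8 ^ (5 / 4 : ℝ)) * (((d : ℝ) / k) ^ (1 / 4 : ℝ) *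
        (s : ℝ) ^ (-(5 / 4) : ℝ)) := by
        rw [e3]
        calc _ = ((4 * ((d : ℝ) / s)) ^ (1 / 4 : ℝ) * (((2 * s : ℕ) : ℝ) / k) ^ (1 / 4 : ℝ)) *
              (8 ^ (5 / 4 : ℝ) * (s : ℝ) ^ (-(5 / 4) : ℝ)) := by ring
          _ = _ := by rw [e4]; ring
    _ ≤ 23 * (((d : ℝ) / k) ^ (1 / 4 : ℝ) * (s : ℝ) ^ (-(5 / 4) : ℝ)) :=
        mul_le_mul_of_nonneg_right r8 (by positivity)
    _ = 23 * ((d : ℝ) / k) ^ (1 / 4 : ℝ) * (s : ℝ) ^ (-(5 / 4) : ℝ) := by ring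

/-- **REC2.** -/
theorem t_REC2 {C₀ : ℝ} (hA : AnnUp C₀) (h4 : S_A4U) (hC : S_CHN) (hE : S_EXI) (hP : S_PIV1) :
    S_A2U := by
  obtain ⟨C4, c4, hC4, hc4, H4⟩ := h4
  set K : ℝ := max 4 (8 * |C₀|) with hK
  have hK4 : 4 ≤ K := le_max_left _ _
  have hK8 : 8 * |C₀| ≤ K := le_max_right _ _
  have hK0 : 0 < K := by linarith
  have hC40 : 0 < C4 := by linarith
  refine ⟨K, min c4 (1 / (5000 * K * C4)), by linarith, lt_min hc4 (by positivity), ?_⟩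
  intro ε v d k S h0 h1
  induction hn : k - d using Nat.strong_induction_on generalizing d k with
  | _ n ih =>
  intro hd hdk hε hS
  have hk0 : (0 : ℝ) < k := by exact_mod_cast (by omega : 0 < k)
  have hd0 : (1 : ℝ) ≤ d := by exact_mod_cast hd
  set x : ℝ := ((d : ℝ) / k) ^ (1 / 4 : ℝ) with hx
  have hx0 : 0 ≤ x := by positivity
  rcases Nat.lt_or_ge (128 * d) k with hk | hk
  swap
  · -- small ratio
    have h2 : (1 : ℝ) / 256 ≤ (d : ℝ) / k := by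
      rw [div_le_div_iff₀ (by norm_num) hk0]
      have : (k : ℝ) ≤ 128 * d := by exact_mod_cast hk
      linarith
    have h3 : (1 : ℝ) / 4 ≤ x := by
      rw [← r256]
      exact Real.rpow_le_rpow (by norm_num) h2 (by norm_num)
    have h4 := Q_le_one h0 h1 S (Sw (F2 v d k))
    nlinarith
  · -- the recursion
    set W := blk v (k / 4) \ blk v (16 * d) with hW
    have hWS : W ⊆ S := Finset.sdiff_subset.trans ((blk_sub (by omega)).trans hS)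
    have main := Q_step (ε := ε) (S := S) h0 h1 hWS (A := Sw (F2 v d k))
      (C := F2 v (16 * d + 2) (k / 4 - 2))
      (D := fun f U B => Dv v d k true f U B ∨ Dv v d k false f U B)
      (T := fun f => (T1 v d f ∪ (T2 v true f ∪ T3 v k f)) ∪
        (T1 v d f ∪ (T2 v false f ∪ T3 v k f)))
      (fun f hf => by
        have hf' := mem_W hf
        have h16 : 16 ≤ ds v f := by omega
        have hb : ∀ b, T1 v d f ∪ (T2 v b f ∪ T3 v k f) ⊆ S ∧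
            f ∉ T1 v d f ∪ (T2 v b f ∪ T3 v k f) := by
          intro b
          obtain ⟨s1, s2, s3⟩ := subs hd hS hf' b
          refine ⟨Finset.union_subset ((T1_sub v d f).trans s1) (Finset.union_subset
            ((T2_sub v b f).trans s2) ((T3_sub v k f).trans s3)), ?_⟩
          rw [Finset.mem_union, Finset.mem_union]
          rintro (h | h | h)
          · exact f_T1 h16 h
          · exact f_T2 h
          · exact f_T3 h16 h
        refine ⟨Finset.union_subset (hb true).1 (hb false).1, ?_, ?_⟩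
        · rw [Finset.mem_union]
          rintro (h | h)
          · exact (hb true).2 h
          · exact (hb false).2 h
        · exact Lc_or (Lc_Dv v d k true f) (Lc_Dv v d k false f))
      (fun U B _ _ h => step_det hC hE hP hd hk h)
    -- the first term
    have t1 : P S (F2 v (16 * d + 2) (k / 4 - 2)) ≤ K / 2 * x := by
      have e1 : P S (F2 v (16 * d + 2) (k / 4 - 2)) ≤
          Pr (fun _ => (1/2:ℝ)) S (fun F => H12S.Crs v.1 v.2 (16 * d + 2) (k / 4 - 2) ↑F ∧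
            H12S.DCrs v.1 v.2 (16 * d + 2) (k / 4 - 2) (↑(S \ F) : Set Edg)) :=
        Pr_mono ok_half fun F _ h => crs_of ((blk_sub (by omega)).trans hS) h
      have e2 := hA (16 * d + 2) (k / 4 - 2) (by omega) (by omega) v.1 v.2 S
      have e3 := first_bd hd hk
      have e4 : 0 ≤ (((16 * d + 2 : ℕ) : ℝ) / ((k / 4 - 2 : ℕ) : ℝ)) ^ (1 / 4 : ℝ) := by positivity
      have e5 : C₀ * (((16 * d + 2 : ℕ) : ℝ) / ((k / 4 - 2 : ℕ) : ℝ)) ^ (1 / 4 : ℝ) ≤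
          |C₀| * (4 * x) :=
        (mul_le_mul_of_nonneg_right (le_abs_self C₀) e4).trans
          (mul_le_mul_of_nonneg_left e3 (abs_nonneg _))
      have e6 : |C₀| * (4 * x) ≤ K / 2 * x := by nlinarith
      linarith
    -- the terms of the sum
    have t2 : ∀ f ∈ W, ε * Q ε S (fun U B => Dv v d k true f U B ∨ Dv v d k false f U B) ≤
        ε * (46 * K ^ 2 * C4 * x) * ((ds v f : ℕ) : ℝ) ^ (-(5 / 4) : ℝ) := by
      intro f hf
      have hf' := mem_W hf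
      have h16 : 16 ≤ ds v f := by omega
      have hk34 : ∀ m : ℕ, m ≤ k → ε * (m : ℝ) ^ (3 / 4 : ℝ) ≤
          min c4 (1 / (5000 * K * C4)) := by
        intro m hm
        refine le_trans (mul_le_mul_of_nonneg_left ?_ h0) hε
        exact Real.rpow_le_rpow (by positivity) (by exact_mod_cast hm) (by norm_num)
      have hb : ∀ b, Q ε S (Dv v d k b f) ≤
          23 * K ^ 2 * C4 * x * ((ds v f : ℕ) : ℝ) ^ (-(5 / 4) : ℝ) := by
        intro b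
        obtain ⟨s1, s2, s3⟩ := subs hd hS hf' b
        rw [Q_Dv hd hS hf']
        have q1 := ih (ds v f / 2 - d) (by omega) d (ds v f / 2) rfl hd (by omega)
          (hk34 _ (by omega)) s1
        have q3 := ih (k - 2 * ds v f) (by omega) (2 * ds v f) k rfl (by omega) (by omega) hε hS
        have q2 := H4 ε b (src (gm b f)) 1 (ds v f / 4) S h0 h1 le_rfl (by omega)
          ((hk34 _ (by omega)).trans (min_le_left _ _)) s2
        have n1 := Q_nonneg h0 h1 S (Sw (F2 v d (ds v f / 2)))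
        have n2 := Q_nonneg h0 h1 S (Sw (F4 b (src (gm b f)) 1 (ds v f / 4)))
        have n3 := Q_nonneg h0 h1 S (Sw (F2 v (2 * ds v f) k))
        have q := term_bd (d := d) (k := k) (s := ds v f) (by omega) h16
        calc Q ε S (Sw (F2 v d (ds v f / 2))) *
              (Q ε S (Sw (F4 b (src (gm b f)) 1 (ds v f / 4))) * Q ε S (Sw (F2 v (2 * ds v f) k)))
            ≤ (K * ((d : ℝ) / ((ds v f / 2 : ℕ) : ℝ)) ^ (1 / 4 : ℝ)) *
              ((C4 * (((1 : ℕ) : ℝ) / ((ds v f / 4 : ℕ) : ℝ)) ^ (5 / 4 : ℝ)) *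
                (K * (((2 * ds v f : ℕ) : ℝ) / k) ^ (1 / 4 : ℝ))) :=
              mul_le_mul q1 (mul_le_mul q2 q3 n3 (by positivity)) (mul_nonneg n2 n3)
                (by positivity)
          _ = K ^ 2 * C4 * (((d : ℝ) / ((ds v f / 2 : ℕ) : ℝ)) ^ (1 / 4 : ℝ) *
              ((((1 : ℕ) : ℝ) / ((ds v f / 4 : ℕ) : ℝ)) ^ (5 / 4 : ℝ) *
                (((2 * ds v f : ℕ) : ℝ) / k) ^ (1 / 4 : ℝ))) := by ring
          _ ≤ K ^ 2 * C4 * (23 * x * ((ds v f : ℕ) : ℝ) ^ (-(5 / 4) : ℝ)) :=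
              mul_le_mul_of_nonneg_left q (by positivity)
          _ = _ := by ring
      have e1 := Q_or_le h0 h1 S (Dv v d k true f) (Dv v d k false f)
      have e2 := hb true
      have e3 := hb false
      have e4 : Q ε S (fun U B => Dv v d k true f U B ∨ Dv v d k false f U B) ≤
          46 * K ^ 2 * C4 * x * ((ds v f : ℕ) : ℝ) ^ (-(5 / 4) : ℝ) := by linarith
      calc _ ≤ ε * (46 * K ^ 2 * C4 * x * ((ds v f : ℕ) : ℝ) ^ (-(5 / 4) : ℝ)) :=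
            mul_le_mul_of_nonneg_left e4 h0
        _ = _ := by ring
    have t3 : ∑ f ∈ W, ε * Q ε S (fun U B => Dv v d k true f U B ∨ Dv v d k false f U B) ≤
        K / 2 * x := by
      refine (Finset.sum_le_sum t2).trans ?_
      rw [← Finset.mul_sum]
      have s1 := sum_W v k W (fun f hf => by
        have hf' := mem_W hf
        unfold ds at hf'
        omega)
      have s2 : ∑ f ∈ W, ((ds v f : ℕ) : ℝ) ^ (-(5 / 4) : ℝ) ≤ 48 * (k : ℝ) ^ (3 / 4 : ℝ) := s1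
      have s3 : ε * (k : ℝ) ^ (3 / 4 : ℝ) ≤ 1 / (5000 * K * C4) := hε.trans (min_le_right _ _)
      have s4 : ε * (46 * K ^ 2 * C4 * x) * ∑ f ∈ W, ((ds v f : ℕ) : ℝ) ^ (-(5 / 4) : ℝ) ≤
          ε * (46 * K ^ 2 * C4 * x) * (48 * (k : ℝ) ^ (3 / 4 : ℝ)) :=
        mul_le_mul_of_nonneg_left s2 (by positivity)
      have s5 : ε * (46 * K ^ 2 * C4 * x) * (48 * (k : ℝ) ^ (3 / 4 : ℝ)) =
          (46 * K ^ 2 * C4 * x * 48) * (ε * (k : ℝ) ^ (3 / 4 : ℝ)) := by ring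
      have s6 : (46 * K ^ 2 * C4 * x * 48) * (ε * (k : ℝ) ^ (3 / 4 : ℝ)) ≤
          (46 * K ^ 2 * C4 * x * 48) * (1 / (5000 * K * C4)) :=
        mul_le_mul_of_nonneg_left s3 (by positivity)
      have s7 : (46 * K ^ 2 * C4 * x * 48) * (1 / (5000 * K * C4)) = 2208 / 5000 * (K * x) := by
        field_simp
        ring
      have s8 : 0 ≤ K * x := by positivity
      linarith
    linarith

end Pool.Agent.Zk85.NS
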