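import Pool.Agent.Zk72.NS.Adv

/-!
# Sums over the edges at given distance from a vertex
-/

set_option autoImplicit false

namespace Pool.Agent.Zk85.NS

open H974 Finset H342P H984P H984N H12S H389NS Pool.Agent.Zk72.NS

theorem step_q (n : ℕ) : 2 * (n : ℝ) ^ (3 / 4 : ℝ) + ((n + 1 : ℕ) : ℝ) ^ (-(1 / 4) : ℝ) ≤
    2 * ((n + 1 : ℕ) : ℝ) ^ (3 / 4 : ℝ) := by
  set x : ℝ := ((n + 1 : ℕ) : ℝ) with hx
  have hx1 : 1 ≤ x := by rw [hx]; push_cast; linarith [Nat.cast_nonneg (α := ℝ) n]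
  have hx0 : 0 < x := by linarith
  have hn : (n : ℝ) = x * (1 + -(1 / x)) := by
    rw [hx]; push_cast; field_simp; ring
  have hinv : 1 / x ≤ 1 := by rw [div_le_one hx0]; exact hx1
  have h1 : (n : ℝ) ^ (3 / 4 : ℝ) ≤ x ^ (3 / 4 : ℝ) * (1 + 3 / 4 * (-(1 / x))) := by
    rw [hn, Real.mul_rpow hx0.le (by linarith)]
    apply mul_le_mul_of_nonneg_left _ (by positivity)
    exact rpow_one_add_le_one_add_mul_self (by linarith) (by norm_num) (by norm_num)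
  have h2 : x ^ (-(1 / 4) : ℝ) = x ^ (3 / 4 : ℝ) * (1 / x) := by
    have h5 : 1 / x = x ^ (-1 : ℝ) := by rw [Real.rpow_neg_one, one_div]
    rw [h5, ← Real.rpow_add hx0]
    norm_num
  rw [h2]
  have h3 : 0 ≤ x ^ (3 / 4 : ℝ) * (1 / x) := by positivity
  nlinarith

theorem sum_q (n : ℕ) : ∑ s ∈ Icc 1 n, ((s : ℕ) : ℝ) ^ (-(1 / 4) : ℝ) ≤ 2 * (n : ℝ) ^ (3 / 4 : ℝ) := by
  induction n with
  | zero => simp
  | succ n ih =>
    rw [Finset.sum_Icc_succ_top (by omega)]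
    have := step_q n
    push_cast at this ih ⊢
    linarith

theorem sd_comm (u v : Vtx) : sd u v = sd v u := by
  unfold sd
  rw [abs_sub_comm u.1, abs_sub_comm u.2]

theorem sd_le_iff {u v : Vtx} {k : ℤ} : sd u v ≤ k ↔
    (u.1 - k ≤ v.1 ∧ v.1 ≤ u.1 + k) ∧ (u.2 - k ≤ v.2 ∧ v.2 ≤ u.2 + k) := by
  unfold sd
  rw [max_le_iff, abs_le, abs_le]
  constructor
  · rintro ⟨⟨h1, h2⟩, h3, h4⟩
    refine ⟨⟨?_, ?_⟩, ?_, ?_⟩ <;> linarith
  · rintro ⟨⟨h1, h2⟩, h3, h4⟩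
    refine ⟨⟨?_, ?_⟩, ?_, ?_⟩ <;> linarith

/-- the edges at distance `s` -/
theorem card_le (v : Vtx) (s : ℕ) (hs : 1 ≤ s) (W : Finset Edg) :
    ((W.filter (fun f => (sd v (src f)).toNat = s)).card : ℝ) ≤ 24 * s := by
  classical
  have hsub : W.filter (fun f => (sd v (src f)).toNat = s) ⊆
      (Icc (v.1 - s) (v.1 + s) ×ˢ (({v.2 - s, v.2 + s} : Finset ℤ) ×ˢ (univ : Finset Bool))) ∪
      (({v.1 - s, v.1 + s} : Finset ℤ) ×ˢ (Icc (v.2 - s) (v.2 + s) ×ˢ (univ : Finset Bool))) := by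
    intro f hf
    rw [Finset.mem_filter] at hf
    obtain ⟨-, hf⟩ := hf
    have h1 : sd v (src f) = s := by omega
    obtain ⟨x, y, b⟩ := f
    rw [src_mk] at h1
    have h2 := (sd_le_iff.1 h1.le)
    simp only at h2
    have h3 : x = v.1 - s ∨ x = v.1 + s ∨ y = v.2 - s ∨ y = v.2 + s := by
      by_contra hcon
      push Not at hcon
      have h4 : sd v (x, y) ≤ (s : ℤ) - 1 := sd_le_iff.2 (by simp only; omega)
      omega
    simp only [Finset.mem_union, Finset.mem_product, Finset.mem_Icc, Finset.mem_insert,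
      Finset.mem_singleton, Finset.mem_univ, and_true]
    omega
  have h1 := (Finset.card_le_card hsub).trans (Finset.card_union_le _ _)
  have h2 : ((Icc (v.1 - s) (v.1 + s) ×ˢ (({v.2 - s, v.2 + s} : Finset ℤ) ×ˢ
      (univ : Finset Bool))) : Finset Edg).card ≤ (2 * s + 1) * (2 * 2) := by
    rw [Finset.card_product, Finset.card_product, Int.card_Icc]
    refine Nat.mul_le_mul (by omega) (Nat.mul_le_mul Finset.card_le_two ?_)
    simp
  have h3 : ((({v.1 - s, v.1 + s} : Finset ℤ) ×ˢ (Icc (v.2 - s) (v.2 + s) ×ˢ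
      (univ : Finset Bool))) : Finset Edg).card ≤ 2 * ((2 * s + 1) * 2) := by
    rw [Finset.card_product, Finset.card_product, Int.card_Icc]
    refine Nat.mul_le_mul Finset.card_le_two (Nat.mul_le_mul (by omega) ?_)
    simp
  have h4 : (W.filter (fun f => (sd v (src f)).toNat = s)).card ≤ 24 * s := by omega
  exact_mod_cast h4

/-- the sum of the powers of the distances -/
theorem sum_W (v : Vtx) (n : ℕ) (W : Finset Edg)
    (hW : ∀ f ∈ W, 1 ≤ (sd v (src f)).toNat ∧ (sd v (src f)).toNat ≤ n) :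
    ∑ f ∈ W, (((sd v (src f)).toNat : ℕ) : ℝ) ^ (-(5 / 4) : ℝ) ≤ 48 * (n : ℝ) ^ (3 / 4 : ℝ) := by
  classical
  rw [← Finset.sum_fiberwise_of_maps_to (g := fun f => (sd v (src f)).toNat) (t := Icc 1 n)
    (fun f hf => Finset.mem_Icc.2 (hW f hf))]
  have h1 : ∀ s ∈ Icc 1 n, ∑ f ∈ W with (sd v (src f)).toNat = s,
      (((sd v (src f)).toNat : ℕ) : ℝ) ^ (-(5 / 4) : ℝ) ≤ 24 * ((s : ℕ) : ℝ) ^ (-(1 / 4) : ℝ) := by
    intro s hs
    have hs1 : 1 ≤ s := (Finset.mem_Icc.1 hs).1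
    have hs0 : (0 : ℝ) < s := by exact_mod_cast hs1
    rw [Finset.sum_congr rfl (g := fun _ => (s : ℝ) ^ (-(5 / 4) : ℝ)) (fun f hf => by
      rw [(Finset.mem_filter.1 hf).2]), Finset.sum_const, nsmul_eq_mul]
    have h2 := card_le v s hs1 W
    have h3 : (s : ℝ) ^ (-(1 / 4) : ℝ) = s * (s : ℝ) ^ (-(5 / 4) : ℝ) := by
      nth_rewrite 2 [← Real.rpow_one (s : ℝ)]
      rw [← Real.rpow_add hs0]
      norm_num
    rw [h3]
    have h4 : (0 : ℝ) ≤ (s : ℝ) ^ (-(5 / 4) : ℝ) := by positivity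
    nlinarith
  refine (Finset.sum_le_sum h1).trans ?_
  rw [← Finset.mul_sum]
  have := sum_q n
  linarith

end Pool.Agent.Zk85.NS
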