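import Pool.Agent.Zk72.NS.Chn
import Pool.Agent.Zk85.NS.Sum

/-!
# Two arms for some modification on a sparse random set of edges
-/

set_option autoImplicit false

namespace Pool.Agent.Zk85.NS

open H974 Finset H342P H984P H984N H12S H389NS Pool.Agent.Zk36.TT Pool.Agent.W92.DP
open Pool.Agent.Zk72.NS

theorem blk_src {x : Edg} {c : Vtx} {r : ℕ} (h : x ∈ blk c r) : sd c (src x) ≤ r := by
  obtain ⟨a, b, _ | _⟩ := x
  · unfold blk at h
    rw [mem_RE_false] at h
    rw [sd_le_iff, src_mk]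
    simp only
    omega
  · unfold blk at h
    rw [mem_RE_true] at h
    rw [sd_le_iff, src_mk]
    simp only
    omega

theorem blk_of {x : Edg} {c : Vtx} {r : ℕ} (h : sd c (src x) + 1 ≤ r) : x ∈ blk c r := by
  have h' : sd c (src x) ≤ (r : ℤ) - 1 := by omega
  rw [sd_le_iff] at h'
  obtain ⟨a, b, _ | _⟩ := x
  · unfold blk
    rw [mem_RE_false]
    rw [src_mk] at h'
    simp only at h'
    omega
  · unfold blk
    rw [mem_RE_true]
    rw [src_mk] at h'
    simp only at h'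
    omega

theorem not_blk {x : Edg} {c : Vtx} {r : ℕ} (h : x ∉ blk c r) : (r : ℤ) ≤ sd c (src x) := by
  by_contra hcon
  exact h (blk_of (by omega))

theorem sd_bdB {v u : Vtx} {s : ℕ} (h : u ∈ bdB v s) : sd v u = s := by
  obtain ⟨h1, h2, h3⟩ := h
  unfold sd
  rw [abs_sub_comm v.1, abs_sub_comm v.2]
  rcases h3 with h3 | h3
  · rw [h3, max_eq_left (by omega)]
  · rw [h3, max_eq_right (by omega)]

theorem blk_sub {v : Vtx} {a b : ℕ} (h : a ≤ b) : blk v a ⊆ blk v b := by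
  unfold blk
  exact RE_subset (by omega) (by omega) (by omega) (by omega)

theorem Cx_mono (hE : S_EXI) {v : Vtx} {d d' k' k : ℕ} {G : Set Edg} (h1 : d ≤ d') (h2 : d' ≤ k')
    (h3 : k' ≤ k) (h : Cx v d k G) : Cx v d' k' G := by
  obtain ⟨u, hu, w, hw, hr⟩ := h
  have e1 := sd_bdB hu
  have e2 := sd_bdB hw
  obtain ⟨u', hu', w', hw', hr', -, -⟩ := hE v d' k' _ u w h2 (by omega) (by omega) hr
  refine ⟨u', hu', w', hw', Reach.mono ?_ hr'⟩
  exact fun x hx => ⟨hx.1.1, hx.2⟩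

theorem F2_mono (hE : S_EXI) {v : Vtx} {d d' k' k : ℕ} {F : Finset Edg} (h1 : d ≤ d')
    (h2 : d' ≤ k') (h3 : k' ≤ k) (h : F2 v d k F) : F2 v d' k' F :=
  ⟨Cx_mono hE h1 h2 h3 h.1, Cx_mono hE h1 h2 h3 h.2⟩

theorem rg_sub2 (b : Bool) (v : Vtx) (d k : ℕ) {S : Finset Edg} (h : blk v (k + 1) ⊆ S) :
    rg b v d k ⊆ S := (rg_sub b v d k).trans h

/-- the two arms as crossings -/
theorem crs_of {v : Vtx} {d k : ℕ} {S B : Finset Edg} (hS : blk v (k + 1) ⊆ S)
    (h : F2 v d k B) : H12S.Crs v.1 v.2 d k (↑B : Set Edg) ∧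
      H12S.DCrs v.1 v.2 d k (↑(S \ B) : Set Edg) := by
  obtain ⟨⟨u, hu, w, hw, hr⟩, ⟨u', hu', w', hw', hr'⟩⟩ := h
  have near : ∀ u ∈ bdB v d, inR (v.1 - d) (v.1 + d) (v.2 - d) (v.2 + d) u := by
    intro u hu
    have := sd_le_iff.1 (sd_bdB hu).le
    exact this
  have far : ∀ w ∈ bdB v k, (w.1 ≤ v.1 - k ∨ v.1 + k ≤ w.1 ∨ w.2 ≤ v.2 - k ∨ v.2 + k ≤ w.2) := by
    intro w hw
    by_contra hcon
    push Not at hcon
    have h1 : sd v w ≤ (k : ℤ) - 1 := sd_le_iff.2 (by omega)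
    have := sd_bdB hw
    omega
  refine ⟨⟨u, w, near u hu, far w hw, Reach.mono ?_ hr⟩, ⟨u', w', near u' hu', far w' hw', ?_⟩⟩
  · intro x hx
    have := hx.1
    unfold gd at this
    simpa using this
  · rw [← reach_dl]
    refine Reach.mono ?_ hr'
    rintro x ⟨hx, hx2⟩
    unfold gd at hx
    simp only [Bool.false_eq_true, if_false, Set.mem_image, Set.mem_compl_iff,
      Finset.mem_coe] at hx
    obtain ⟨g, hg, rfl⟩ := hx
    refine ⟨g, ?_, rfl⟩
    have h1 : dl g ∈ blk v k := (Finset.mem_sdiff.1 (Finset.mem_coe.1 hx2)).1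
    have h2 := Pool.Agent.W571.DPad.dls_mem h1
    rw [Equiv.symm_apply_apply] at h2
    rw [Finset.mem_coe, Finset.mem_sdiff]
    exact ⟨hS h2, hg⟩

/-- four arms around an edge which is pivotal for a crossing -/
theorem Cx_piv (hP : S_PIV1) {v : Vtx} {d k m : ℕ} {b : Bool} {f : Edg} {F : Finset Edg}
    (hm : 1 ≤ m) (h1 : Cx v d k (gd b F)) (h2 : ¬ Cx v d k (gd b (Pool.Agent.Zk36.TT.flip f F)))
    (h3 : (d : ℤ) + m + 2 ≤ sd v (src f)) (h4 : sd v (src f) + m + 2 ≤ k) :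
    F4 b (src (gm b f)) 1 m F := by
  obtain ⟨u, hu, w, hw, hr⟩ := h1
  have e1 := sd_bdB hu
  have e2 := sd_bdB hw
  have e3 := gm_src b f
  have e4 := Walk_sd_tri v u (src f)
  have e5 := Walk_sd_tri u (src (gm b f)) (src f)
  have e6 := sd_comm u (src (gm b f))
  have e7 := sd_comm (src (gm b f)) (src f)
  have e8 := Walk_sd_tri v (src f) w
  have e9 := Walk_sd_tri (src f) (src (gm b f)) w
  have e10 := Walk_sd_tri v (src f) (src (gm b f))
  have e11 := Walk_sd_tri v (src (gm b f)) (src f)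
  have hn : ¬ Reach ((gd b F ∩ ↑(blk v k \ blk v d)) \ {gm b f}) u w := by
    intro hr2
    apply h2
    refine ⟨u, hu, w, hw, Reach.mono ?_ hr2⟩
    rintro x ⟨⟨hx1, hx2⟩, hx3⟩
    exact ⟨(gd_flip b f F x (by simpa using hx3)).1 hx1, hx2⟩
  have h5 := hP _ (gm b f) u w m hm hr hn (by omega) (by omega)
  unfold Pool.Agent.Zk72.NS.F4
  refine (Pool.Agent.W571.DPad.A4a_congr ?_).1 h5
  ext x
  simp only [Set.mem_inter_iff, Finset.mem_coe]
  constructor
  · rintro ⟨⟨hx1, -⟩, hx3⟩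
    exact ⟨hx1, hx3⟩
  · rintro ⟨hx1, hx3⟩
    refine ⟨⟨hx1, ?_⟩, hx3⟩
    have g1 := blk_src hx3
    have g2 := Walk_sd_tri v (src (gm b f)) (src x)
    have g3 := Walk_sd_tri v (src x) (src (gm b f))
    have g4 := sd_comm (src x) (src (gm b f))
    rw [Finset.mem_sdiff]
    refine ⟨blk_of (by omega), fun hx4 => ?_⟩
    have g5 := blk_src hx4
    omega

/-! ### The regions -/

/-- distance of an edge -/
def ds (v : Vtx) (f : Edg) : ℕ := (sd v (src f)).toNat

theorem sd_nonneg (u v : Vtx) : 0 ≤ sd u v := by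
  unfold sd
  exact le_max_of_le_left (abs_nonneg _)

theorem ds_eq (v : Vtx) (f : Edg) : ((ds v f : ℕ) : ℤ) = sd v (src f) := by
  unfold ds
  have := sd_nonneg v (src f)
  omega

/-- region of the inner two arms -/
noncomputable def T1 (v : Vtx) (d : ℕ) (f : Edg) : Finset Edg :=
  rg true v d (ds v f / 2) ∪ rg false v d (ds v f / 2)

/-- region of the four arms around the edge -/
noncomputable def T2 (v : Vtx) (b : Bool) (f : Edg) : Finset Edg :=
  rg b (src (gm b f)) 1 (ds v f / 4)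

/-- region of the outer two arms -/
noncomputable def T3 (v : Vtx) (k : ℕ) (f : Edg) : Finset Edg :=
  rg true v (2 * ds v f) k ∪ rg false v (2 * ds v f) k

theorem T1_sub (v : Vtx) (d : ℕ) (f : Edg) : T1 v d f ⊆ blk v (ds v f / 2 + 1) :=
  Finset.union_subset (rg_sub _ _ _ _) (rg_sub _ _ _ _)

theorem T2_sub (v : Vtx) (b : Bool) (f : Edg) :
    T2 v b f ⊆ blk (src (gm b f)) (ds v f / 4 + 1) := rg_sub _ _ _ _

theorem T3_sub (v : Vtx) (k : ℕ) (f : Edg) : T3 v k f ⊆ blk v (k + 1) :=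
  Finset.union_subset (rg_sub _ _ _ _) (rg_sub _ _ _ _)

theorem T3_out {v : Vtx} {k : ℕ} {f : Edg} {h : Edg} (hf : 1 ≤ ds v f) (hh : h ∈ T3 v k f) :
    h ∉ blk v (2 * ds v f - 1) := by
  have e : 2 * ds v f = (2 * ds v f - 1) + 1 := by omega
  unfold T3 at hh
  rw [e] at hh
  rcases Finset.mem_union.1 hh with h | h <;> exact rg_out h

theorem T12 {v : Vtx} {d : ℕ} {b : Bool} {f : Edg} (hf : 16 ≤ ds v f) :
    Disjoint (T1 v d f) (T2 v b f) := by
  rw [Finset.disjoint_left]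
  intro x h1 h2
  have g1 := blk_src (T1_sub v d f h1)
  have g2 := blk_src (T2_sub v b f h2)
  have g3 := Walk_sd_tri v (src x) (src f)
  have g4 := Walk_sd_tri (src x) (src (gm b f)) (src f)
  have g5 := gm_src b f
  have g6 := sd_comm (src x) (src (gm b f))
  have g7 := sd_comm (src (gm b f)) (src f)
  have g8 := ds_eq v f
  push_cast at g1 g2
  omega

theorem T23 {v : Vtx} {k : ℕ} {b : Bool} {f : Edg} (hf : 16 ≤ ds v f) :
    Disjoint (T2 v b f) (T3 v k f) := by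
  rw [Finset.disjoint_left]
  intro x h1 h2
  have g1 := not_blk (T3_out (by omega) h2)
  have g2 := blk_src (T2_sub v b f h1)
  have g3 := Walk_sd_tri v (src f) (src x)
  have g4 := Walk_sd_tri (src f) (src (gm b f)) (src x)
  have g5 := gm_src b f
  have g8 := ds_eq v f
  have g9 : ((2 * ds v f - 1 : ℕ) : ℤ) = 2 * (ds v f : ℤ) - 1 := by omega
  push_cast at g2
  omega

theorem T13 {v : Vtx} {d k : ℕ} {f : Edg} (hf : 16 ≤ ds v f) :
    Disjoint (T1 v d f) (T3 v k f) := by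
  rw [Finset.disjoint_left]
  intro x h1 h2
  exact T3_out (by omega) h2 (blk_sub (by omega) (T1_sub v d f h1))

theorem f_T1 {v : Vtx} {d : ℕ} {f : Edg} (hf : 16 ≤ ds v f) : f ∉ T1 v d f := by
  intro h
  have g1 := blk_src (T1_sub v d f h)
  have g8 := ds_eq v f
  push_cast at g1
  omega

theorem f_T2 {v : Vtx} {b : Bool} {f : Edg} : f ∉ T2 v b f := by
  intro h
  unfold T2 at h
  rw [mem_rg] at h
  apply (Finset.mem_sdiff.1 h).2
  apply blk_of
  have : sd (src (gm b f)) (src (gm b f)) = 0 := by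
    unfold sd
    simp
  omega

theorem f_T3 {v : Vtx} {k : ℕ} {f : Edg} (hf : 16 ≤ ds v f) : f ∉ T3 v k f := by
  intro h
  apply T3_out (by omega) h
  apply blk_of
  have g8 := ds_eq v f
  omega

end Pool.Agent.Zk85.NS
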